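import Pool.Agent.N637.SLX.Stm3
import Pool.Agent.N701.SLX.Mom

/-!
# Project SLX (helper637), part MASS: the law is a probability law
-/

set_option autoImplicit false
set_option linter.unusedVariables false
set_option linter.unusedSectionVars false

open scoped Classical

namespace Pool.Agent.N75.SLX

open Finset Filter Topology
open Pool.Agent.N637.SLX

/-! ### products -/

/-- the partial products -/
noncomputable def qp (k : ℕ) : ℝ := ∏ i ∈ range k, (1 - (1 / 2 : ℝ) ^ (i + 1))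

/-- the infinite product -/
noncomputable def et : ℝ := ∏' i : ℕ, (1 - (1 / 2 : ℝ) ^ (i + 1))

theorem qp_zero : qp 0 = 1 := by simp [qp]

theorem qp_succ (k : ℕ) : qp (k + 1) = qp k * (1 - (1 / 2 : ℝ) ^ (k + 1)) :=
  prod_range_succ _ _

theorem pw_pos (k : ℕ) : 0 < (1 / 2 : ℝ) ^ k := by positivity

theorem pw_lt (k : ℕ) : (1 / 2 : ℝ) ^ (k + 1) < 1 :=
  pow_lt_one₀ (by norm_num) (by norm_num) (by omega)

theorem fac_pos (k : ℕ) : 0 < 1 - (1 / 2 : ℝ) ^ (k + 1) := by linarith [pw_lt k]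

theorem qp_pos (k : ℕ) : 0 < qp k := prod_pos fun i _ => fac_pos i

theorem qp_anti : Antitone qp := by
  refine antitone_nat_of_succ_le fun k => ?_
  rw [qp_succ]
  have h1 := qp_pos k
  have h2 := pw_pos (k + 1)
  nlinarith

theorem qp_low (n : ℕ) : 1 / 4 + (1 / 2 : ℝ) ^ (n + 2) ≤ qp (n + 1) := by
  induction n with
  | zero =>
    rw [qp_succ, qp_zero]
    norm_num
  | succ n ih =>
    rw [qp_succ]
    have h1 : (1 / 2 : ℝ) ^ (n + 2) ≤ 1 / 4 := by
      calc (1 / 2 : ℝ) ^ (n + 2) ≤ (1 / 2 : ℝ) ^ 2 :=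
            pow_le_pow_of_le_one (by norm_num) (by norm_num) (by omega)
        _ = 1 / 4 := by norm_num
    have h2 := pw_pos (n + 2)
    have h3 : (1 / 2 : ℝ) ^ (n + 1 + 2) = (1 / 2 : ℝ) ^ (n + 2) / 2 := by ring
    have h4 : (1 / 2 : ℝ) ^ (n + 1 + 1) = (1 / 2 : ℝ) ^ (n + 2) := rfl
    rw [h3, h4]
    set x := (1 / 2 : ℝ) ^ (n + 2) with hx
    calc 1 / 4 + x / 2 ≤ (1 / 4 + x) * (1 - x) := by nlinarith
      _ ≤ qp (n + 1) * (1 - x) := mul_le_mul_of_nonneg_right ih (by linarith)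

theorem mult (k : ℕ) : Multipliable fun l : ℕ => 1 - (1 / 2 : ℝ) ^ (l + k + 1) := by
  have h : Summable fun l : ℕ => -((1 / 2 : ℝ) ^ (l + k + 1)) := by
    refine Summable.neg ?_
    have h1 : Summable fun l : ℕ => (1 / 2 : ℝ) ^ l :=
      summable_geometric_of_lt_one (by norm_num) (by norm_num)
    have h2 := h1.mul_right ((1 / 2 : ℝ) ^ (k + 1))
    refine h2.congr fun l => ?_
    rw [← pow_add]
    rfl
  have h3 := Real.multipliable_one_add_of_summable h
  refine h3.congr fun l => ?_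
  ring

theorem qp_tendsto : Tendsto qp atTop (𝓝 et) := (mult 0).hasProd.tendsto_prod_nat

theorem et_low : 1 / 4 ≤ et := by
  refine ge_of_tendsto qp_tendsto (Filter.eventually_atTop.2 ⟨1, fun n hn => ?_⟩)
  obtain ⟨m, rfl⟩ : ∃ m, n = m + 1 := ⟨n - 1, by omega⟩
  linarith [qp_low m, pw_pos (m + 2)]

theorem et_pos : 0 < et := by linarith [et_low]

theorem et_le (n : ℕ) : et ≤ qp n :=
  le_of_tendsto qp_tendsto (Filter.eventually_atTop.2 ⟨n, fun m hm => qp_anti hm⟩)

theorem tail (r : ℕ) : ∏' l : ℕ, (1 - (1 / 2 : ℝ) ^ (r + 1 + l)) = et / qp r := by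
  have h := Multipliable.prod_mul_tprod_nat_mul' (f := fun i : ℕ => 1 - (1 / 2 : ℝ) ^ (i + 1))
    (k := r) (mult r)
  have h2 : ∏' l : ℕ, (1 - (1 / 2 : ℝ) ^ (r + 1 + l)) =
      ∏' i : ℕ, (1 - (1 / 2 : ℝ) ^ (i + r + 1)) := by
    refine tprod_congr fun l => ?_
    congr 2
    ring
  rw [h2, eq_div_iff (qp_pos r).ne', mul_comm]
  exact h

/-! ### Gaussian binomials -/

/-- the Gaussian binomials -/
noncomputable def gb (n k : ℕ) : ℝ := if k ≤ n then qp n / (qp k * qp (n - k)) else 0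

theorem gb_zero (n : ℕ) : gb n 0 = 1 := by
  rw [gb, if_pos (Nat.zero_le n), qp_zero, one_mul, Nat.sub_zero, div_self (qp_pos n).ne']

theorem gb_gt {n k : ℕ} (h : n < k) : gb n k = 0 := by
  rw [gb, if_neg (by omega)]

theorem gb_self (n : ℕ) : gb n n = 1 := by
  rw [gb, if_pos le_rfl, Nat.sub_self, qp_zero, mul_one, div_self (qp_pos n).ne']

theorem gb_rec (n k : ℕ) (h : k ≤ n) :
    gb (n + 1) (k + 1) = gb n (k + 1) + (1 / 2 : ℝ) ^ (n - k) * gb n k := by
  rcases h.eq_or_lt with rfl | h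
  · rw [gb_self, gb_self, gb_gt (by omega), Nat.sub_self]
    norm_num
  · obtain ⟨m, rfl⟩ : ∃ m, n = k + 1 + m := ⟨n - (k + 1), by omega⟩
    rw [gb, gb, gb, if_pos (by omega), if_pos (by omega), if_pos (by omega)]
    have e1 : k + 1 + m + 1 - (k + 1) = m + 1 := by omega
    have e2 : k + 1 + m - (k + 1) = m := by omega
    have e3 : k + 1 + m - k = m + 1 := by omega
    rw [e1, e2, e3, qp_succ (k + 1 + m), qp_succ k, qp_succ m]
    have p1 := (qp_pos k).ne'
    have p2 := (qp_pos m).ne'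
    have p3 := (fac_pos k).ne'
    have p4 := (fac_pos m).ne'
    have e4 : (1 / 2 : ℝ) ^ (k + 1 + m + 1) = (1 / 2 : ℝ) ^ (k + 1) * (1 / 2 : ℝ) ^ (m + 1) := by
      rw [← pow_add, add_assoc (k + 1) m 1]
    rw [e4]
    set x := (1 / 2 : ℝ) ^ (k + 1) with hx
    set y := (1 / 2 : ℝ) ^ (m + 1) with hy
    field_simp
    ring

theorem gb_nonneg (n k : ℕ) : 0 ≤ gb n k := by
  unfold gb
  split_ifs
  · have h1 := qp_pos n
    have h2 := qp_pos k
    have h3 := qp_pos (n - k)
    positivity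
  · exact le_rfl

theorem gb_le (n k : ℕ) : gb n k ≤ 1 / qp k := by
  unfold gb
  have h2 := qp_pos k
  split_ifs
  · have h1 := qp_pos n
    have h3 := qp_pos (n - k)
    rw [div_le_div_iff₀ (by positivity) h2, one_mul, mul_comm]
    exact mul_le_mul_of_nonneg_left (qp_anti (Nat.sub_le n k)) h2.le
  · positivity

theorem gb_tendsto (k : ℕ) : Tendsto (fun n => gb n k) atTop (𝓝 (1 / qp k)) := by
  have h1 : Tendsto (fun n => qp n / (qp k * qp (n - k))) atTop (𝓝 (et / (qp k * et))) := by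
    refine qp_tendsto.div (tendsto_const_nhds.mul (qp_tendsto.comp (tendsto_sub_atTop_nat k))) ?_
    exact mul_ne_zero (qp_pos k).ne' et_pos.ne'
  have h2 : et / (qp k * et) = 1 / qp k := by
    have := et_pos.ne'
    have := (qp_pos k).ne'
    field_simp
  rw [h2] at h1
  refine h1.congr' ?_
  filter_upwards [eventually_ge_atTop k] with n hn
  rw [gb, if_pos hn]

theorem durfee (n : ℕ) : ∀ a : ℕ, ∑ k ∈ range (n + 1), gb n k *
    ((1 / 2 : ℝ) ^ (k * k + a * k) / qp (k + a)) = 1 / qp (n + a) := by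
  induction n with
  | zero =>
    intro a
    simp [gb_self]
  | succ n ih =>
    intro a
    rw [sum_range_succ']
    have e1 : ∀ k ∈ range (n + 1), gb (n + 1) (k + 1) *
        ((1 / 2 : ℝ) ^ ((k + 1) * (k + 1) + a * (k + 1)) / qp (k + 1 + a)) =
        gb n (k + 1) * ((1 / 2 : ℝ) ^ ((k + 1) * (k + 1) + a * (k + 1)) / qp (k + 1 + a)) +
        (1 / 2 : ℝ) ^ (n + 1 + a) *
          (gb n k * ((1 / 2 : ℝ) ^ (k * k + (a + 1) * k) / qp (k + (a + 1)))) := by
      intro k hk
      rw [mem_range] at hk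
      obtain ⟨m, rfl⟩ : ∃ m, n = k + m := ⟨n - k, by omega⟩
      rw [gb_rec _ _ (by omega), Nat.add_sub_cancel_left]
      have e2 : k + (a + 1) = k + 1 + a := by ring
      rw [e2]
      have e3 : (1 / 2 : ℝ) ^ m * (1 / 2 : ℝ) ^ ((k + 1) * (k + 1) + a * (k + 1)) =
          (1 / 2 : ℝ) ^ (k + m + 1 + a) * (1 / 2 : ℝ) ^ (k * k + (a + 1) * k) := by
        rw [← pow_add, ← pow_add]
        congr 1
        ring
      have p := (qp_pos (k + 1 + a)).ne'
      rw [add_mul]
      congr 1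
      calc (1 / 2 : ℝ) ^ m * gb (k + m) k *
            ((1 / 2 : ℝ) ^ ((k + 1) * (k + 1) + a * (k + 1)) / qp (k + 1 + a)) =
            ((1 / 2 : ℝ) ^ m * (1 / 2 : ℝ) ^ ((k + 1) * (k + 1) + a * (k + 1))) *
              (gb (k + m) k / qp (k + 1 + a)) := by ring
        _ = _ := by rw [e3]; ring
    rw [sum_congr rfl e1, sum_add_distrib, ← mul_sum, ih (a + 1), gb_zero]
    have e4 : ∑ k ∈ range (n + 1), gb n (k + 1) *
        ((1 / 2 : ℝ) ^ ((k + 1) * (k + 1) + a * (k + 1)) / qp (k + 1 + a)) +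
        gb n 0 * ((1 / 2 : ℝ) ^ (0 * 0 + a * 0) / qp (0 + a)) = 1 / qp (n + a) := by
      rw [← sum_range_succ' (fun k => gb n k * ((1 / 2 : ℝ) ^ (k * k + a * k) / qp (k + a))),
        sum_range_succ, ih a, gb_gt (by omega), zero_mul, add_zero]
    rw [gb_zero] at e4
    have e5 : qp (n + (a + 1)) = qp (n + a) * (1 - (1 / 2 : ℝ) ^ (n + a + 1)) := qp_succ (n + a)
    have e6 : qp (n + 1 + a) = qp (n + (a + 1)) := by
      congr 1
      ring
    have e7 : (1 / 2 : ℝ) ^ (n + 1 + a) = (1 / 2 : ℝ) ^ (n + a + 1) := by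
      congr 1
      ring
    rw [add_right_comm, e4, e6, e5, e7]
    have p1 := (qp_pos (n + a)).ne'
    have p2 := (fac_pos (n + a)).ne'
    field_simp
    ring

/-- the terms of the series -/
noncomputable def tm (k : ℕ) : ℝ := (1 / 2 : ℝ) ^ (k * k) / qp k ^ 2

theorem tm_nonneg (k : ℕ) : 0 ≤ tm k := by
  have := qp_pos k
  unfold tm
  positivity

theorem durfee0 (n : ℕ) : ∑ k ∈ range (n + 1), gb n k * ((1 / 2 : ℝ) ^ (k * k) / qp k) =
    1 / qp n := by
  have h := durfee n 0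
  simp only [zero_mul, add_zero] at h
  exact h

theorem tm_low (n : ℕ) : 1 / qp n ≤ ∑ k ∈ range (n + 1), tm k := by
  rw [← durfee0]
  refine sum_le_sum fun k _ => ?_
  have h1 := gb_le n k
  have h2 := qp_pos k
  calc gb n k * ((1 / 2 : ℝ) ^ (k * k) / qp k) ≤ 1 / qp k * ((1 / 2 : ℝ) ^ (k * k) / qp k) :=
        mul_le_mul_of_nonneg_right h1 (by positivity)
    _ = tm k := by
        unfold tm
        field_simp

theorem tm_up (N : ℕ) : ∑ k ∈ range N, tm k ≤ 1 / et := by
  have h1 : Tendsto (fun n => ∑ k ∈ range N, gb n k * ((1 / 2 : ℝ) ^ (k * k) / qp k)) atTop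
      (𝓝 (∑ k ∈ range N, tm k)) := by
    refine tendsto_finsetSum _ fun k _ => ?_
    have h2 := (gb_tendsto k).mul_const ((1 / 2 : ℝ) ^ (k * k) / qp k)
    have h3 : 1 / qp k * ((1 / 2 : ℝ) ^ (k * k) / qp k) = tm k := by
      have := (qp_pos k).ne'
      unfold tm
      field_simp
    rw [h3] at h2
    exact h2
  refine le_of_tendsto h1 (Filter.eventually_atTop.2 ⟨N, fun n hn => ?_⟩)
  calc ∑ k ∈ range N, gb n k * ((1 / 2 : ℝ) ^ (k * k) / qp k)
      ≤ ∑ k ∈ range (n + 1), gb n k * ((1 / 2 : ℝ) ^ (k * k) / qp k) := by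
        refine sum_le_sum_of_subset_of_nonneg (range_subset_range.2 (by omega)) fun k _ _ => ?_
        have h2 := qp_pos k
        exact mul_nonneg (gb_nonneg n k) (by positivity)
    _ = 1 / qp n := durfee0 n
    _ ≤ 1 / et := one_div_le_one_div_of_le et_pos (et_le n)

theorem tm_hasSum : HasSum tm (1 / et) := by
  rw [hasSum_iff_tendsto_nat_of_nonneg tm_nonneg]
  have h1 : Tendsto (fun n => 1 / qp n) atTop (𝓝 (1 / et)) :=
    tendsto_const_nhds.div qp_tendsto et_pos.ne'
  have h2 : Tendsto (fun n => ∑ k ∈ range (n + 1), tm k) atTop (𝓝 (1 / et)) :=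
    tendsto_of_tendsto_of_tendsto_of_le_of_le h1 tendsto_const_nhds tm_low
      fun n => tm_up (n + 1)
  exact (tendsto_add_atTop_iff_nat 1).1 h2

/-! ### the number of the matrices -/

theorem gl_eq (r : ℕ) : (gl r : ℝ) = 2 ^ (r * r) * qp r := by
  unfold gl qp
  rw [Nat.cast_prod, ← prod_range_reflect (fun i => (1 - (1 / 2 : ℝ) ^ (i + 1)))]
  have h1 : ∀ i ∈ range r, ((2 ^ r - 2 ^ i : ℕ) : ℝ) =
      2 ^ r * (1 - (1 / 2 : ℝ) ^ (r - 1 - i + 1)) := by
    intro i hi
    rw [mem_range] at hi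
    rw [Nat.cast_sub (Nat.pow_le_pow_right (by norm_num) hi.le)]
    have e : r - 1 - i + 1 = r - i := by omega
    push_cast
    rw [e]
    obtain ⟨m, rfl⟩ : ∃ m, r = i + m := ⟨r - i, by omega⟩
    rw [Nat.add_sub_cancel_left, mul_sub, mul_one, pow_add, mul_assoc, ← mul_pow]
    norm_num
  rw [prod_congr rfl h1, prod_mul_distrib, prod_const, card_range, ← pow_mul]

theorem card_alt (r : ℕ) :
    (univ.filter fun M : Fin r → Fin r → ZMod 2 => Alt M).card = 2 ^ (r * (r - 1) / 2) := by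
  induction r with
  | zero =>
    show _ = 1
    rw [card_eq_one]
    refine ⟨fun a => Fin.elim0 a, ?_⟩
    ext M
    simp only [mem_filter, mem_univ, true_and, mem_singleton]
    constructor
    · intro _
      funext a
      exact Fin.elim0 a
    · intro _
      exact ⟨fun a => Fin.elim0 a, fun a => Fin.elim0 a⟩
  | succ r ih =>
    have h1 := Pool.Agent.N701.SLX.alt_succ r (fun _ => True)
    simp only [and_true] at h1
    rw [h1, ih, ← pow_add, Nat.triangle_succ]

theorem cor_unique {r : ℕ} (M : Fin r → Fin r → ZMod 2) :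
    ∃ d ≤ r, ∀ j, Cor M j ↔ j = d := by
  let K : Submodule (ZMod 2) (Fin r → ZMod 2) := LinearMap.ker (Matrix.mulVecLin (Matrix.of M))
  have h1 : (univ.filter fun x : Fin r → ZMod 2 => ∀ a, ∑ b, M a b * x b = 0).card =
      Nat.card K := by
    rw [← Fintype.card_subtype, ← Nat.card_eq_fintype_card]
    refine Nat.card_congr (Equiv.subtypeEquivRight fun x => ?_)
    show _ ↔ x ∈ LinearMap.ker (Matrix.mulVecLin (Matrix.of M))
    rw [LinearMap.mem_ker, Matrix.mulVecLin_apply]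
    constructor
    · intro h
      funext a
      exact h a
    · intro h a
      exact congrFun h a
  have h2 : Nat.card K = 2 ^ Module.finrank (ZMod 2) K := by
    rw [Module.natCard_eq_pow_finrank (K := ZMod 2), Nat.card_zmod]
  refine ⟨Module.finrank (ZMod 2) K, ?_, fun j => ?_⟩
  · have := Submodule.finrank_le K
    simpa using this
  · unfold Cor
    rw [h1, h2]
    constructor
    · intro h
      exact (Nat.pow_right_injective le_rfl h).symm
    · rintro rfl
      rfl

theorem sum_alt (r : ℕ) : ∑ j ∈ range (r + 1), alt r j = 2 ^ (r * (r - 1) / 2) := by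
  rw [← card_alt]
  unfold alt
  simp only [card_filter]
  rw [sum_comm]
  refine sum_congr rfl fun M _ => ?_
  obtain ⟨d, hd, h⟩ := cor_unique M
  simp only [h]
  by_cases hM : Alt M
  · simp only [hM, true_and, if_true]
    rw [sum_ite_eq', if_pos (mem_range.2 (by omega))]
  · simp [hM]

theorem alt_zero {r j : ℕ} (h : r < j) : alt r j = 0 := by
  unfold alt
  rw [card_eq_zero, filter_eq_empty_iff]
  rintro M _ ⟨_, hc⟩
  obtain ⟨d, hd, h1⟩ := cor_unique M
  rw [h1] at hc
  omega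

theorem law_nonneg (r j : ℕ) : 0 ≤ law r j := by
  unfold law
  rw [tail]
  have h1 := et_pos
  have h2 := qp_pos r
  positivity

theorem law_zero {r j : ℕ} (h : r < j) : law r j = 0 := by
  unfold law
  rw [alt_zero h]
  simp

theorem law_sum (r : ℕ) : ∑ j ∈ range (r + 1), law r j = et * tm r := by
  have h0 : ∀ j ∈ range (r + 1), law r j = (alt r j : ℝ) *
      (1 / 2 ^ (r * (r - 1) / 2) / (gl r : ℝ) * (et / qp r)) := by
    intro j _
    unfold law
    rw [tail]
    ring
  rw [sum_congr rfl h0, ← sum_mul]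
  have h1 : ∑ j ∈ range (r + 1), (alt r j : ℝ) = 2 ^ (r * (r - 1) / 2) := by
    exact_mod_cast sum_alt r
  rw [h1, gl_eq, tm]
  have p := (qp_pos r).ne'
  have e : (1 / 2 : ℝ) ^ (r * r) = 1 / 2 ^ (r * r) := by rw [div_pow, one_pow]
  rw [e]
  field_simp

theorem fib (r : ℕ) : HasSum (fun s => pl (r, s)) (et * tm r) := by
  rw [← law_sum]
  have h1 : ∑ j ∈ range (r + 1), law r j = ∑ s ∈ Icc r (2 * r), pl (r, s) := by
    refine sum_bij' (fun j _ => r + j) (fun s _ => s - r) ?_ ?_ ?_ ?_ ?_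
    · intro j hj
      rw [mem_range] at hj
      rw [mem_Icc]
      omega
    · intro s hs
      rw [mem_Icc] at hs
      rw [mem_range]
      omega
    · intro j hj
      simp
    · intro s hs
      rw [mem_Icc] at hs
      omega
    · intro j hj
      rw [pl, if_pos (by simp)]
      simp
  rw [h1]
  refine hasSum_sum_of_ne_finset_zero fun s hs => ?_
  rw [mem_Icc, not_and_or] at hs
  unfold pl
  split_ifs with h
  · exact law_zero (by
      simp only at h ⊢
      omega)
  · rfl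

theorem t_MASS : S_MASS := by
  refine ⟨law_nonneg, ?_⟩
  have hnn : 0 ≤ pl := by
    intro a
    unfold pl
    split_ifs
    · exact law_nonneg _ _
    · exact le_rfl
  have hs : HasSum (fun r => et * tm r) 1 := by
    have h := tm_hasSum.mul_left et
    rwa [mul_one_div_cancel et_pos.ne'] at h
  have hsum : Summable pl := by
    rw [summable_prod_of_nonneg hnn]
    refine ⟨fun r => (fib r).summable, ?_⟩
    simp only [(fib _).tsum_eq]
    exact hs.summable
  have ht : ∑' a, pl a = 1 := by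
    rw [hsum.tsum_prod]
    simp only [(fib _).tsum_eq]
    exact hs.tsum_eq
  rw [← ht]
  exact hsum.hasSum

end Pool.Agent.N75.SLX
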